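import Pool.Agent.LE.StmtsW
import Pool.Agent.Helper3_LE.ZooG

/-!
# INF: large cubes insulate at a rate below the Lyapunov exponent
-/

set_option autoImplicit false

open MeasureTheory ProbabilityTheory Function Filter

open scoped ENNReal BigOperators Topology

noncomputable section

namespace Pool.Agent.LE.H77W

open Pool.Agent.Anderson Pool.Agent.Loc Pool.Agent.Mob Pool.Agent.Helper54.Bal

theorem inf (gvu : GvuStmt) (ins : InsStmt2) : InfStmt := by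
  classical
  intro d σ E g κ hd hσ hlya hκ hκg L₀
  have hσ0 : 0 < |σ| := abs_pos.2 hσ
  set B : ℝ := |E| + |σ| + 1 / |σ| with hBdef
  have hB : 0 < B := by positivity
  have hpar : Par B σ E := by
    have h1 : 0 < 1 / |σ| := by positivity
    refine ⟨?_, ?_, ?_⟩
    · have := abs_nonneg E
      linarith
    · have := abs_nonneg E
      linarith
    · have h2 : 1 / |σ| * |σ| = 1 := by field_simp
      have h3 : 0 ≤ (|E| + |σ|) * |σ| := by positivity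
      calc (1 : ℝ) ≤ (|E| + |σ|) * |σ| + 1 / |σ| * |σ| := by linarith
        _ = B * |σ| := by ring
  obtain ⟨Li, hins⟩ := ins d (κ / 48) κ 1 hd (by positivity) hκ le_rfl (by
    rw [Nat.cast_one]
    linarith)
  obtain ⟨Q₀, hQ₀, hgvu⟩ := gvu d B (κ / 48) (1 / 8) hd hB (by positivity) (by norm_num)
  obtain ⟨J, l, hl, hgvu⟩ := hgvu Q₀ le_rfl
  have hl2 := (hlya.2 (g - κ) (by linarith)).2
  rw [show g - (g - κ) = κ by ring] at hl2
  have hev : ∀ᶠ L : ℕ in atTop, PP d (gl σ) {V | ¬ SG V L κ E 0} ≤ ENNReal.ofReal (1 / 8) := by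
    have h1 : (0 : ℝ≥0∞) < ENNReal.ofReal (1 / 8) := by
      rw [ENNReal.ofReal_pos]
      norm_num
    exact (hl2.eventually_lt_const h1).mono fun L hL => hL.le
  obtain ⟨L₁, hL₁⟩ := eventually_atTop.1 hev
  set ℓ₀ : ℕ := max l (max (max Li L₁) (max L₀ 1)) with hℓ₀
  have hℓl : l ≤ ℓ₀ := le_max_left _ _
  have hℓi : Li ≤ ℓ₀ := by omega
  have hℓ1 : L₁ ≤ ℓ₀ := by omega
  have hℓ0 : L₀ ≤ ℓ₀ := by omega
  have hℓ : 1 ≤ ℓ₀ := by omega
  obtain ⟨j, -, N, a, hbox, hbad⟩ := hgvu ℓ₀ hℓl σ E hpar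
  set ell : ℕ := 2 ^ j * ℓ₀ with hell
  have hle : ℓ₀ ≤ ell := Nat.le_mul_of_pos_left _ (Nat.pow_pos (by norm_num))
  have hell1 : 1 ≤ ell := hℓ.trans hle
  have hLe : ell ≤ Q₀ * ell := Nat.le_mul_of_pos_left _ hQ₀
  have hL : ℓ₀ ≤ Q₀ * ell := hle.trans hLe
  refine ⟨Q₀ * ell, N, a, hℓ0.trans hL, (box_mono a (by omega)).trans hbox, ?_⟩
  have hQd : (1 : ℝ) ≤ (Q₀ : ℝ) ^ (2 * d) := one_le_pow₀ (by exact_mod_cast hQ₀)
  have hb1 : PP d (gl σ) {V | ¬ GoodU V N Q₀ ell a E (κ / 48)} ≤ ENNReal.ofReal (1 / 8) :=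
    hbad.trans (ENNReal.ofReal_le_ofReal (div_le_self (by norm_num) hQd))
  have hb2 : PP d (gl σ) {V | ¬ SG V (Q₀ * ell) κ E a} ≤ ENNReal.ofReal (1 / 8) := by
    rw [H3G.prob_nsg]
    exact hL₁ _ (hℓ1.trans hL)
  have hsub : {V : Site d → ℝ | ¬ ∀ x ∈ box a (2 * (Q₀ * ell)), ∀ y ∈ box a (2 * (Q₀ * ell)),
      Q₀ * ell + 1 ≤ sd x y → κ / 2 * ((Q₀ * ell : ℕ) : ℝ) ≤ DL (box 0 N) E V x y} ⊆
      {V | ¬ GoodU V N Q₀ ell a E (κ / 48)} ∪ {V | ¬ SG V (Q₀ * ell) κ E a} := by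
    intro V hV
    by_contra hc
    simp only [Set.mem_union, Set.mem_ofPred_eq, not_or, not_not] at hc
    apply hV
    intro x hx y hy hxy
    have h1 := hins V N Q₀ ell a E hQ₀ hell1 (hℓi.trans hL) (by rw [one_mul]; exact hbox)
      (by rw [one_mul]; exact hc.1) hc.2 x hx y hy hxy
    push_cast
    exact h1
  refine (measure_mono hsub).trans ((measure_union_le _ _).trans ?_)
  refine (add_le_add hb1 hb2).trans ?_
  rw [← ENNReal.ofReal_add (by norm_num) (by norm_num)]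
  apply ENNReal.ofReal_le_ofReal
  norm_num

end Pool.Agent.LE.H77W
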